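import Pool.Agent.helper51.QS.SpecA
import Pool.Agent.helper16.PC.CONR
import Pool.Agent.helper13.PC.ASA

set_option autoImplicit false

namespace Pool.Agent.QS

open Pool.Agent.PC MvPolynomial

universe u

section basic

variable {F K : Type u} [Field F] [Field K] [Algebra F K] {v : K → ℤ}

/-- the valuation ring of the restriction -/
noncomputable def DVF_O (F : Type u) [Field F] [Algebra F K] (hv : DVal v) : ValuationSubring F :=
  (ASA_V hv).comap (algebraMap F K)

theorem DVF_mem (hv : DVal v) (x : F) : x ∈ DVF_O F hv ↔ Ge v 0 (algebraMap F K x) := Iff.rfl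

theorem DVF_ne {x : F} (hx : x ≠ 0) : algebraMap F K x ≠ 0 := (map_ne_zero (algebraMap F K)).mpr hx

theorem DVF_val (hv : DVal v) (x : F) (hx : x ≠ 0) :
    (DVF_O F hv).valuation x = 1 ↔ v (algebraMap F K x) = 0 := by
  have h1 : (DVF_O F hv).valuation x ≤ 1 ↔ 0 ≤ v (algebraMap F K x) := by
    rw [ValuationSubring.valuation_le_one_iff, DVF_mem]
    constructor
    · intro h; exact h.resolve_left (DVF_ne hx)
    · intro h; exact Or.inr h
  have h2 : (DVF_O F hv).valuation x⁻¹ ≤ 1 ↔ v (algebraMap F K x) ≤ 0 := by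
    rw [ValuationSubring.valuation_le_one_iff, DVF_mem, map_inv₀]
    constructor
    · intro h
      have h3 := h.resolve_left (inv_ne_zero (DVF_ne hx))
      rw [CON_inv hv _ (DVF_ne hx)] at h3
      omega
    · intro h
      right
      rw [CON_inv hv _ (DVF_ne hx)]
      omega
  have h3 : (DVF_O F hv).valuation x ≠ 0 := (Valuation.ne_zero_iff _).mpr hx
  constructor
  · intro h
    have h4 := h1.1 h.le
    have h5 := h2.1 (by rw [map_inv₀, h, inv_one])
    omega
  · intro h
    apply le_antisymm (h1.2 h.ge)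
    have h4 := h2.2 h.le
    rw [map_inv₀] at h4
    exact (inv_le_one₀ (zero_lt_iff.mpr h3)).mp h4

theorem DVF_nonunit (hv : DVal v) (x : F) (hx : x ≠ 0) :
    x ∈ (DVF_O F hv).nonunits ↔ 0 < v (algebraMap F K x) := by
  rw [ValuationSubring.mem_nonunits_iff]
  have h1 : (DVF_O F hv).valuation x ≤ 1 ↔ 0 ≤ v (algebraMap F K x) := by
    rw [ValuationSubring.valuation_le_one_iff, DVF_mem]
    constructor
    · intro h; exact h.resolve_left (DVF_ne hx)
    · intro h; exact Or.inr h
  have h2 := DVF_val hv x hx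
  rw [lt_iff_le_and_ne, h1, Ne, h2]
  omega

/-- two terms of a vanishing sum have the same value -/
theorem DVF_two (hv : DVal v) {ι : Type} [DecidableEq ι] (S : Finset ι) (f : ι → K) (hS : S.Nonempty)
    (hf : ∀ i ∈ S, f i ≠ 0) (hsum : ∑ i ∈ S, f i = 0) : ∃ i ∈ S, ∃ j ∈ S, i ≠ j ∧ v (f i) = v (f j) := by
  obtain ⟨i, hi, hmin⟩ := Finset.exists_min_image S (fun i => v (f i)) hS
  by_contra hcon
  push Not at hcon
  have h1 : Ge v (v (f i) + 1) (∑ j ∈ S.erase i, f j) := by
    apply ASA_Gsum hv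
    intro j hj
    rw [Finset.mem_erase] at hj
    right
    have h2 := hmin j hj.2
    have h3 := hcon i hi j hj.2 hj.1.symm
    omega
  have h2 : ∑ j ∈ S.erase i, f j = - f i := by
    rw [← Finset.add_sum_erase S f hi] at hsum
    exact eq_neg_of_add_eq_zero_right hsum
  rw [h2] at h1
  rcases h1 with h1 | h1
  · exact hf i hi (neg_eq_zero.mp h1)
  · rw [CON_neg hv _ (hf i hi)] at h1
    omega

/-- `v` is not trivial on `F` -/
theorem DVF_nontriv [Algebra.IsAlgebraic F K] (hv : DVal v) :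
    ∃ c : F, c ≠ 0 ∧ 0 < v (algebraMap F K c) := by
  obtain ⟨x, hx0, hx1⟩ := hv.one
  obtain ⟨P, hP, hPx⟩ := Algebra.IsAlgebraic.isAlgebraic (R := F) x
  have hsum : ∑ i ∈ P.support, algebraMap F K (P.coeff i) * x ^ i = 0 := by
    rw [Polynomial.aeval_eq_sum_range, ] at hPx
    rw [← Polynomial.aeval_eq_sum_range, Polynomial.aeval_def, Polynomial.eval₂_eq_sum, Polynomial.sum] at hPx
    exact hPx
  obtain ⟨i, hi, j, hj, hij, hvij⟩ := DVF_two hv P.support (fun i => algebraMap F K (P.coeff i) * x ^ i)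
    (by rwa [Polynomial.support_nonempty]) (by
      intro i hi
      exact mul_ne_zero (DVF_ne (Polynomial.mem_support_iff.mp hi)) (pow_ne_zero i hx0)) hsum
  have hci := Polynomial.mem_support_iff.mp hi
  have hcj := Polynomial.mem_support_iff.mp hj
  rw [hv.mul _ _ (DVF_ne hci) (pow_ne_zero i hx0), hv.mul _ _ (DVF_ne hcj) (pow_ne_zero j hx0),
    ASA_pow hv hx0, ASA_pow hv hx0, hx1] at hvij
  have hne : v (algebraMap F K (P.coeff i)) ≠ v (algebraMap F K (P.coeff j)) := by
    intro h
    apply hij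
    rw [h] at hvij
    have : (i : ℤ) = j := by linarith
    exact_mod_cast this
  rcases lt_or_gt_of_ne hne with h | h
  · refine ⟨P.coeff j / P.coeff i, div_ne_zero hcj hci, ?_⟩
    rw [map_div₀, CON_div hv _ _ (DVF_ne hcj) (DVF_ne hci)]
    omega
  · refine ⟨P.coeff i / P.coeff j, div_ne_zero hci hcj, ?_⟩
    rw [map_div₀, CON_div hv _ _ (DVF_ne hci) (DVF_ne hcj)]
    omega

/-- minimal positive value -/
theorem DVF_min [Algebra.IsAlgebraic F K] (hv : DVal v) :
    ∃ w : F, w ≠ 0 ∧ 0 < v (algebraMap F K w) ∧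
      ∀ x : F, x ≠ 0 → v (algebraMap F K w) ∣ v (algebraMap F K x) := by
  classical
  obtain ⟨c, hc0, hc⟩ := DVF_nontriv (F := F) hv
  have hex : ∃ m : ℕ, ∃ x : F, x ≠ 0 ∧ 0 < v (algebraMap F K x) ∧ v (algebraMap F K x) = m := by
    refine ⟨(v (algebraMap F K c)).toNat, c, hc0, hc, ?_⟩
    omega
  obtain ⟨w, hw0, hw, hwm⟩ := Nat.find_spec hex
  refine ⟨w, hw0, hw, ?_⟩
  intro x hx
  set e := v (algebraMap F K w) with he
  by_contra hnd
  have h1 : 0 < v (algebraMap F K x) % e := by
    have h2 := Int.emod_nonneg (v (algebraMap F K x)) hw.ne'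
    rcases h2.lt_or_eq with h | h
    · exact h
    · exact absurd (Int.dvd_of_emod_eq_zero h.symm) hnd
  have h2 := Int.emod_lt_of_pos (v (algebraMap F K x)) hw
  set q := v (algebraMap F K x) / e with hq
  have h3 : v (algebraMap F K (x / w ^ q)) = v (algebraMap F K x) % e := by
    rw [map_div₀, map_zpow₀, CON_div hv _ _ (DVF_ne hx) (zpow_ne_zero q (DVF_ne hw0)),
      CON_zpow hv _ (DVF_ne hw0), ← he]
    have := Int.emod_add_mul_ediv (v (algebraMap F K x)) e
    rw [← hq] at this
    linarith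
  have h4 : (v (algebraMap F K x) % e).toNat < Nat.find hex := by
    have : ((v (algebraMap F K x) % e).toNat : ℤ) < Nat.find hex := by omega
    exact_mod_cast this
  refine Nat.find_min hex h4 ⟨x / w ^ q, div_ne_zero hx (zpow_ne_zero q hw0), ?_, ?_⟩
  · rw [h3]; exact h1
  · rw [h3]; omega

theorem DVF_restr (hv : DVal v) (w : F) (hw0 : w ≠ 0) (hw : 0 < v (algebraMap F K w))
    (hdvd : ∀ x : F, x ≠ 0 → v (algebraMap F K w) ∣ v (algebraMap F K x)) :
    Restr v (DVF_O F hv) w := by
  have hunif : IsUnif (DVF_O F hv) w := by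
    refine ⟨hw0, fun x => ?_⟩
    by_cases hx : x = 0
    · subst hx
      constructor
      · intro _
        exact ⟨0, (DVF_O F hv).zero_mem, by rw [mul_zero]⟩
      · intro _
        rw [ValuationSubring.mem_nonunits_iff, map_zero]
        exact zero_lt_one
    · rw [DVF_nonunit hv x hx]
      constructor
      · intro h
        refine ⟨x / w, ?_, by field_simp⟩
        rw [DVF_mem, map_div₀]
        right
        rw [CON_div hv _ _ (DVF_ne hx) (DVF_ne hw0)]
        have := Int.le_of_dvd h (hdvd x hx)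
        omega
      · rintro ⟨y, hy, rfl⟩
        have hy0 : y ≠ 0 := by
          rintro rfl
          rw [mul_zero] at hx
          exact hx rfl
        rw [map_mul, hv.mul _ _ (DVF_ne hw0) (DVF_ne hy0)]
        have := ((DVF_mem hv y).1 hy).resolve_left (DVF_ne hy0)
        omega
  refine ⟨fun x => Iff.rfl, hunif, hw, ?_⟩
  intro x t hx
  have hπ : ∀ π : F, IsUnif (DVF_O F hv) π → v (algebraMap F K π) = v (algebraMap F K w) := by
    intro π hπ
    have h1 : π ∈ (DVF_O F hv).nonunits := (hπ.2 π).2 ⟨1, (DVF_O F hv).one_mem, by rw [mul_one]⟩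
    have h2 : w ∈ (DVF_O F hv).nonunits := (hunif.2 w).2 ⟨1, (DVF_O F hv).one_mem, by rw [mul_one]⟩
    obtain ⟨y, hy, hy1⟩ := (hunif.2 π).1 h1
    obtain ⟨z, hz, hz1⟩ := (hπ.2 w).1 h2
    have hy0 : y ≠ 0 := by
      rintro rfl
      rw [mul_zero] at hy1
      exact hπ.1 hy1
    have hz0 : z ≠ 0 := by
      rintro rfl
      rw [mul_zero] at hz1
      exact hw0 hz1
    have e1 : v (algebraMap F K π) = v (algebraMap F K w) + v (algebraMap F K y) := by
      rw [hy1, map_mul, hv.mul _ _ (DVF_ne hw0) (DVF_ne hy0)]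
    have e2 : v (algebraMap F K w) = v (algebraMap F K π) + v (algebraMap F K z) := by
      rw [hz1, map_mul, hv.mul _ _ (DVF_ne hπ.1) (DVF_ne hz0)]
    have e3 := ((DVF_mem hv y).1 hy).resolve_left (DVF_ne hy0)
    have e4 := ((DVF_mem hv z).1 hz).resolve_left (DVF_ne hz0)
    omega
  constructor
  · rintro ⟨π, u, hπu, hu, rfl⟩
    have hu0 : u ≠ 0 := by
      rintro rfl
      rw [zero_mul] at hx
      exact hx rfl
    rw [map_mul, map_zpow₀, hv.mul _ _ (DVF_ne hu0) (zpow_ne_zero t (DVF_ne hπu.1)),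
      CON_zpow hv _ (DVF_ne hπu.1), hπ π hπu, (DVF_val hv u hu0).1 hu, zero_add]
  · intro h
    refine ⟨w, x / w ^ t, hunif, ?_, ?_⟩
    · rw [DVF_val hv _ (div_ne_zero hx (zpow_ne_zero t hw0)), map_div₀, map_zpow₀,
        CON_div hv _ _ (DVF_ne hx) (zpow_ne_zero t (DVF_ne hw0)), CON_zpow hv _ (DVF_ne hw0), h]
      ring
    · have := zpow_ne_zero t hw0
      field_simp

theorem DVF_isUnit (hv : DVal v) (x : DVF_O F hv) :
    IsUnit x ↔ (x : F) ≠ 0 ∧ v (algebraMap F K (x : F)) = 0 := by
  rw [ValuationSubring.valuation_eq_one_iff]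
  constructor
  · intro h
    have h0 : (x : F) ≠ 0 := by
      intro h0
      rw [h0, map_zero] at h
      exact zero_ne_one h
    exact ⟨h0, (DVF_val hv _ h0).1 h⟩
  · rintro ⟨h0, h⟩
    exact (DVF_val hv _ h0).2 h

theorem DVF_dvr (hv : DVal v) (w : F) (hw0 : w ≠ 0) (hw : 0 < v (algebraMap F K w))
    (hdvd : ∀ x : F, x ≠ 0 → v (algebraMap F K w) ∣ v (algebraMap F K x)) :
    IsDiscreteValuationRing (DVF_O F hv) := by
  have hwO : w ∈ DVF_O F hv := by
    rw [DVF_mem]; right; omega
  have hpos : ∀ x : DVF_O F hv, (x : F) ≠ 0 → 0 ≤ v (algebraMap F K (x : F)) := fun x hx =>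
    ((DVF_mem hv _).1 x.2).resolve_left (DVF_ne hx)
  apply IsDiscreteValuationRing.ofHasUnitMulPowIrreducibleFactorization
  refine ⟨⟨w, hwO⟩, ?_, ?_⟩
  · constructor
    · intro h
      have := ((DVF_isUnit hv _).1 h).2
      simp only at this
      omega
    · intro a b hab
      have hab' : w = (a : F) * (b : F) := congrArg (fun z : DVF_O F hv => (z : F)) hab
      have ha0 : (a : F) ≠ 0 := by
        intro h; rw [h, zero_mul] at hab'; exact hw0 hab'
      have hb0 : (b : F) ≠ 0 := by
        intro h; rw [h, mul_zero] at hab'; exact hw0 hab'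
      have h1 : v (algebraMap F K w) = v (algebraMap F K (a : F)) + v (algebraMap F K (b : F)) := by
        rw [hab', map_mul, hv.mul _ _ (DVF_ne ha0) (DVF_ne hb0)]
      have h2 := hpos a ha0
      have h3 := hpos b hb0
      rcases h2.lt_or_eq with h | h
      · right
        rw [DVF_isUnit]
        refine ⟨hb0, ?_⟩
        have := Int.le_of_dvd h (hdvd _ ha0)
        omega
      · left
        rw [DVF_isUnit]
        exact ⟨ha0, h.symm⟩
  · intro x hx
    have hx0 : (x : F) ≠ 0 := by
      intro h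
      exact hx (Subtype.ext h)
    obtain ⟨q, hq⟩ := hdvd (x : F) hx0
    have h1 := hpos x hx0
    have hq0 : 0 ≤ q := by
      by_contra hneg
      push Not at hneg
      have := mul_neg_of_pos_of_neg hw hneg
      omega
    obtain ⟨m, rfl⟩ := Int.eq_ofNat_of_zero_le hq0
    refine ⟨m, ?_⟩
    have hu : v (algebraMap F K ((x : F) / w ^ m)) = 0 := by
      rw [map_div₀, map_pow, CON_div hv _ _ (DVF_ne hx0) (pow_ne_zero m (DVF_ne hw0)),
        ASA_pow hv (DVF_ne hw0), hq]
      ring
    have hu0 : (x : F) / w ^ m ≠ 0 := div_ne_zero hx0 (pow_ne_zero m hw0)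
    have huO : (x : F) / w ^ m ∈ DVF_O F hv := by
      rw [DVF_mem]; right; omega
    have hunit : IsUnit (⟨(x : F) / w ^ m, huO⟩ : DVF_O F hv) := by
      rw [DVF_isUnit]
      exact ⟨hu0, hu⟩
    obtain ⟨U, hU⟩ := hunit
    refine ⟨U, ?_⟩
    rw [hU]
    apply Subtype.ext
    show w ^ m * ((x : F) / w ^ m) = x
    have := pow_ne_zero m hw0
    field_simp

end basic

section resid

variable {k F K : Type u} [Field k] [Field F] [Field K] [Algebra k F] [Algebra k K] [Algebra F K]
  [IsScalarTower k F K] {v : K → ℤ}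

theorem DVF_resid (hv : DVal v) (hvk : ∀ c : k, c ≠ 0 → v (algebraMap k K c) = 0)
    [Algebra.IsAlgebraic F K] (n : ℕ) (a : Fin n → K)
    (ha : ∀ Q : MvPolynomial (Fin n) k, Q ≠ 0 → aeval a Q ≠ 0 ∧ v (aeval a Q) = 0) :
    ∃ b : Fin n → F, (∀ i, b i ∈ DVF_O F hv) ∧
      ∀ Q : MvPolynomial (Fin n) k, Q ≠ 0 → (DVF_O F hv).valuation (aeval b Q) = 1 := by
  classical
  have hvk' : ∀ c : k, algebraMap k K c ∈ ASA_V hv := by
    intro c
    rw [ASA_mem]
    by_cases hc : c = 0
    · left; rw [hc, map_zero]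
    · right; rw [hvk c hc]
  let cm : k →+* ASA_V hv := (algebraMap k K).codRestrict (ASA_V hv).toSubring hvk'
  let _ : Algebra k (ASA_V hv) := cm.toAlgebra
  have hcm : ∀ c : k, ((algebraMap k (ASA_V hv) c : ASA_V hv) : K) = algebraMap k K c := fun c => rfl
  let κ := IsLocalRing.ResidueField (ASA_V hv)
  let res : ASA_V hv →ₐ[k] κ := IsScalarTower.toAlgHom k (ASA_V hv) κ
  have hres : ∀ y : ASA_V hv, res y = IsLocalRing.residue (ASA_V hv) y := fun y => rfl
  let cv : ASA_V hv →ₐ[k] K :=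
    { (ASA_V hv).subtype with commutes' := fun c => hcm c }
  have hcv : ∀ y : ASA_V hv, cv y = (y : K) := fun y => rfl
  -- residues are independent
  have haV : ∀ i, a i ∈ ASA_V hv := by
    intro i
    have h1 := (ha (X i) (X_ne_zero i)).2
    rw [aeval_X] at h1
    rw [ASA_mem]
    right; omega
  let a' : Fin n → ASA_V hv := fun i => ⟨a i, haV i⟩
  have hind : AlgebraicIndependent k (fun i => res (a' i)) := by
    rw [algebraicIndependent_iff]
    intro Q hQ
    by_contra hQ0
    have h1 : aeval (fun i => res (a' i)) Q = res (aeval a' Q) := by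
      rw [← MvPolynomial.comp_aeval_apply]
    rw [h1, hres, ASA_res hv] at hQ
    have h2 : ((aeval a' Q : ASA_V hv) : K) = aeval a Q := by
      rw [← hcv, MvPolynomial.comp_aeval_apply]
      rfl
    rw [h2] at hQ
    obtain ⟨h3, h4⟩ := ha Q hQ0
    have h5 := hQ.resolve_left h3
    omega
  -- the residues of elements of `F`
  let s : Set κ := {z | ∃ (x : F) (h : algebraMap F K x ∈ ASA_V hv), res ⟨algebraMap F K x, h⟩ = z}
  have halg : Algebra.IsAlgebraic (Algebra.adjoin k s) κ := by
    constructor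
    intro z
    obtain ⟨y, rfl⟩ := IsLocalRing.residue_surjective z
    obtain ⟨P, hP, hPy⟩ := Algebra.IsAlgebraic.isAlgebraic (R := F) (y : K)
    obtain ⟨i0, hi0, hmin⟩ := Finset.exists_min_image P.support
      (fun i => v (algebraMap F K (P.coeff i))) (by rwa [Polynomial.support_nonempty])
    have hc0 := Polynomial.mem_support_iff.mp hi0
    have hcV : ∀ i, algebraMap F K (P.coeff i / P.coeff i0) ∈ ASA_V hv := by
      intro i
      rw [ASA_mem, map_div₀]
      by_cases hi : P.coeff i = 0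
      · left; rw [hi, map_zero, zero_div]
      · right
        rw [CON_div hv _ _ (DVF_ne hi) (DVF_ne hc0)]
        have := hmin i (Polynomial.mem_support_iff.mpr hi)
        omega
    have hcS : ∀ i, res ⟨_, hcV i⟩ ∈ Algebra.adjoin k s := fun i =>
      Algebra.subset_adjoin ⟨_, hcV i, rfl⟩
    let R : Polynomial (Algebra.adjoin k s) :=
      ∑ i ∈ P.support, Polynomial.monomial i (⟨res ⟨_, hcV i⟩, hcS i⟩ : Algebra.adjoin k s)
    refine ⟨R, ?_, ?_⟩
    · intro hR
      have h1 : R.coeff i0 = (⟨res ⟨_, hcV i0⟩, hcS i0⟩ : Algebra.adjoin k s) := by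
        simp only [R, Polynomial.finsetSum_coeff, Polynomial.coeff_monomial]
        rw [Finset.sum_eq_single i0]
        · rw [if_pos rfl]
        · intro b _ hb
          rw [if_neg hb]
        · intro h
          exact absurd hi0 h
      rw [hR, Polynomial.coeff_zero] at h1
      have h2 : res ⟨_, hcV i0⟩ = 0 := (congrArg Subtype.val h1).symm
      have h3 : (⟨_, hcV i0⟩ : ASA_V hv) = 1 := by
        apply Subtype.ext
        show algebraMap F K (P.coeff i0 / P.coeff i0) = 1
        rw [div_self hc0, map_one]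
      rw [h3, map_one] at h2
      exact one_ne_zero h2
    · have h1 : Polynomial.aeval (IsLocalRing.residue (ASA_V hv) y) R =
          ∑ i ∈ P.support, res ⟨_, hcV i⟩ * res y ^ i := by
        simp only [R, map_sum, Polynomial.aeval_monomial]
        rfl
      rw [h1]
      have h2 : ∑ i ∈ P.support, res ⟨_, hcV i⟩ * res y ^ i =
          res (∑ i ∈ P.support, ⟨_, hcV i⟩ * y ^ i) := by
        rw [map_sum]
        apply Finset.sum_congr rfl
        intro i _
        rw [map_mul, map_pow]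
      rw [h2]
      have h3 : ∑ i ∈ P.support, (⟨_, hcV i⟩ : ASA_V hv) * y ^ i = 0 := by
        apply Subtype.ext
        rw [← hcv, map_sum]
        show _ = (0 : K)
        have h4 : ∀ i ∈ P.support, cv ((⟨_, hcV i⟩ : ASA_V hv) * y ^ i) =
            (algebraMap F K (P.coeff i0))⁻¹ * (algebraMap F K (P.coeff i) * (y : K) ^ i) := by
          intro i _
          rw [map_mul, map_pow, hcv, hcv]
          show algebraMap F K (P.coeff i / P.coeff i0) * (y : K) ^ i = _
          rw [map_div₀]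
          ring
        rw [Finset.sum_congr rfl h4, ← Finset.mul_sum]
        have h5 : ∑ i ∈ P.support, algebraMap F K (P.coeff i) * (y : K) ^ i = 0 := by
          rw [Polynomial.aeval_def, Polynomial.eval₂_eq_sum, Polynomial.sum] at hPy
          exact hPy
        rw [h5, mul_zero]
      rw [h3, map_zero]
  obtain ⟨T, hTs, hT⟩ := exists_isTranscendenceBasis_subset (R := k) (A := κ) s
  have hcard : Cardinal.lift.{u} (Cardinal.mk (Fin n)) ≤ Cardinal.lift.{0} (Cardinal.mk T) := by
    rw [hT.cardinalMk_eq_trdeg]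
    exact hind.lift_cardinalMk_le_trdeg
  obtain ⟨j⟩ := Cardinal.lift_mk_le'.mp hcard
  have hTind : AlgebraicIndependent k (fun i : Fin n => ((j i : T) : κ)) := hT.1.comp j j.injective
  have hlift : ∀ i : Fin n, ∃ (x : F) (h : algebraMap F K x ∈ ASA_V hv), res ⟨algebraMap F K x, h⟩ = ((j i : T) : κ) :=
    fun i => hTs (j i).2
  choose b hb hbj using hlift
  refine ⟨b, hb, ?_⟩
  intro Q hQ
  have h0 : aeval (fun i : Fin n => ((j i : T) : κ)) Q ≠ 0 := by
    intro h
    exact hQ ((algebraicIndependent_iff.mp hTind) Q h)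
  let b' : Fin n → ASA_V hv := fun i => ⟨algebraMap F K (b i), hb i⟩
  have h1 : aeval (fun i : Fin n => ((j i : T) : κ)) Q = res (aeval b' Q) := by
    rw [MvPolynomial.comp_aeval_apply]
    have h2 : (fun i : Fin n => ((j i : T) : κ)) = fun i => res (b' i) := by
      funext i
      exact (hbj i).symm
    rw [h2]
  rw [h1, hres, Ne, ASA_res hv] at h0
  have h2 : ((aeval b' Q : ASA_V hv) : K) = algebraMap F K (aeval b Q) := by
    rw [← hcv, MvPolynomial.comp_aeval_apply]
    have h3 : algebraMap F K (aeval b Q) = (IsScalarTower.toAlgHom k F K) (aeval b Q) := rfl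
    rw [h3, MvPolynomial.comp_aeval_apply]
    rfl
  rw [h2] at h0
  have h3 : Ge v 0 (algebraMap F K (aeval b Q)) := by
    rw [← h2]
    exact (aeval b' Q : ASA_V hv).2
  have h4 : aeval b Q ≠ 0 := by
    intro h
    apply h0
    left
    rw [h, map_zero]
  rw [DVF_val hv _ h4]
  have h5 := h3.resolve_left (DVF_ne h4)
  by_contra h6
  exact h0 (Or.inr (by omega))

end resid

theorem DVF : DVF_stmt.{u} := by
  intro k F K _ _ _ _ _ _ _ _ n v hv hvk ha
  obtain ⟨a, ha⟩ := ha
  obtain ⟨w, hw0, hw, hdvd⟩ := DVF_min (F := F) hv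
  obtain ⟨b, hb, hbQ⟩ := DVF_resid (F := F) hv hvk (n - 1) a ha
  exact ⟨DVF_O F hv, w, DVF_restr hv w hw0 hw hdvd, DVF_dvr hv w hw0 hw hdvd, b, hb, hbQ⟩

end Pool.Agent.QS
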