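import Pool.Agent.helper51.QS.SpecC
import Pool.Agent.helper51.PC.Bridge

set_option autoImplicit false

namespace Pool.Agent.QS

open Pool.Agent.PC MvPolynomial

universe u

theorem MAIN_tb (k F K : Type u) [Field k] [Field F] [Field K] [Algebra k F] [Algebra k K]
    [Algebra F K] [IsScalarTower k F K] [Algebra.IsAlgebraic F K]
    (n : ℕ) (x : Fin n → K) (hx : IsTranscendenceBasis k x) :
    ∃ x : Fin n → F, IsTranscendenceBasis k x := by
  obtain ⟨s, hs⟩ := exists_isTranscendenceBasis k F
  have h1 : IsTranscendenceBasis k (algebraMap F K ∘ ((↑) : s → F)) := hs.algebraMap_comp (A := K)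
  have h2 := h1.lift_cardinalMk_eq hx
  obtain ⟨e⟩ := Cardinal.lift_mk_eq'.1 h2
  refine ⟨((↑) : s → F) ∘ e.symm, ?_⟩
  exact (isTranscendenceBasis_equiv e.symm).2 hs

theorem MAIN (hCORE : CORE_stmt.{u}) (hSML : SML_stmt.{u}) (hINV : INV_stmt.{u})
    (hLCF : LCF_stmt.{u}) (hGAL : GAL_stmt.{u}) (hKDI : KDI_stmt.{u}) : MAIN_stmt.{u} := by
  intro n p hp hlt k _ _ _ A _ _ _ _ hdim G _ _ _ _ hG S B hplt
  have hpf : Fact p.Prime := ⟨hp⟩
  let R := FixedPoints.subalgebra k A G
  let F := FractionRing R
  let K := FractionRing A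
  have hfaith : FaithfulSMul R A := inferInstance
  have i1 : IsDomain R := inferInstance
  have i2 : FaithfulSMul R K := inferInstance
  let i3 : Algebra F K := FractionRing.liftAlgebra R K
  have i4 : IsScalarTower R F K := FractionRing.isScalarTower_liftAlgebra R K
  have i5 : IsScalarTower k R F := inferInstance
  have i6 : IsScalarTower k A K := inferInstance
  have i7 : IsScalarTower R A K := inferInstance
  have i8 : IsScalarTower k R K := inferInstance
  have i9 : IsScalarTower k F K := inferInstance
  have j1 : SMulCommClass G R A := inferInstance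
  have j2 : Algebra.IsInvariant R A G := ⟨fun b hb => ⟨⟨b, hb⟩, rfl⟩⟩
  obtain ⟨hft, hint, -⟩ := hINV k R A G
  have hbd := hplt.1
  by_cases hn : n ≤ 1
  · refine hSML R A ?_ S hbd.1 hbd.2.1
    rw [hdim]
    exact_mod_cast hn
  · push Not at hn
    obtain ⟨⟨x, hx⟩, -, -⟩ := hLCF k A K n hdim
    obtain ⟨hfd, -, -⟩ := hGAL k R A F K G
    have halg : Algebra.IsAlgebraic F K := inferInstance
    obtain ⟨x', hx'⟩ := MAIN_tb k F K n x hx
    have hftA : Algebra.FiniteType k A := inferInstance
    have hftR : Algebra.FiniteType k R := hft hftA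
    have hess : Algebra.EssFiniteType k F := by
      have h1 : Algebra.EssFiniteType k R := inferInstance
      have h2 : Algebra.EssFiniteType R F := Algebra.EssFiniteType.of_isLocalization F (nonZeroDivisors R)
      exact Algebra.EssFiniteType.comp k R F
    have hfr := (hKDI k F n x' hx').2
    have hplt' : IsPlt k F R n S B := (BR_plt (by omega) hfr S B).1 hplt
    exact hCORE k R A F K G n p hn hlt hdim hG S B hplt'

end Pool.Agent.QS
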